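import Pool.Agent.N202.TB.Stm

/-!
# TB/4: arrays killed by the Lie algebra of the Hodge group are combinations of Hodge arrays
-/

set_option autoImplicit false
set_option linter.unusedSectionVars false

namespace Pool.Agent.N738.TB

open Matrix
open Pool.Agent.N996.BP Pool.Agent.N202.TB

/-! ### Rational equations -/

theorem rat_eq {F : Type} [Field F] [CharZero F] {m : Type} [Fintype m] (P : Set (m → ℚ))
    (x : m → F) (h : ∀ p ∈ P, ∑ i, (p i : F) * x i = 0) :
    x ∈ Submodule.span F {x' : m → F | ∃ z : m → ℚ, (∀ p ∈ P, ∑ i, p i * z i = 0) ∧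
      (fun i => (z i : F)) = x'} := by
  classical
  obtain ⟨b⟩ : Nonempty (Module.Basis (Module.Basis.ofVectorSpaceIndex ℚ F) ℚ F) :=
    ⟨Module.Basis.ofVectorSpace ℚ F⟩
  obtain ⟨T, hT⟩ : ∃ T : Finset (Module.Basis.ofVectorSpaceIndex ℚ F),
    T = Finset.univ.biUnion (fun i => (b.repr (x i)).support) := ⟨_, rfl⟩
  have h1 : x = ∑ s ∈ T, (b s : F) • (fun i => ((b.repr (x i) s : ℚ) : F)) := by
    funext i
    rw [Finset.sum_apply]
    have h2 : x i = ∑ s ∈ (b.repr (x i)).support, (b.repr (x i) s) • b s := by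
      conv_lhs => rw [← b.linearCombination_repr (x i), Finsupp.linearCombination_apply]
      rfl
    rw [h2]
    have h3 : (b.repr (x i)).support ⊆ T := by
      rw [hT]
      exact Finset.subset_biUnion_of_mem (fun i => (b.repr (x i)).support) (Finset.mem_univ i)
    rw [Finset.sum_subset h3]
    · refine Finset.sum_congr rfl fun s _ => ?_
      rw [Pi.smul_apply, smul_eq_mul, Rat.smul_def, mul_comm]
    · intro s _ hs
      rw [Finsupp.notMem_support_iff.1 hs, zero_smul]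
  rw [h1]
  refine Submodule.sum_mem _ fun s _ => Submodule.smul_mem _ _ (Submodule.subset_span ?_)
  refine ⟨fun i => b.repr (x i) s, fun p hp => ?_, rfl⟩
  have h2 : b.repr (∑ i, (p i) • x i) s = 0 := by
    have h3 : ∑ i, (p i) • x i = 0 := by
      rw [← h p hp]
      refine Finset.sum_congr rfl fun i _ => ?_
      rw [Rat.smul_def]
    rw [h3, map_zero]
    rfl
  rw [map_sum, Finset.sum_apply'] at h2
  rw [← h2]
  refine Finset.sum_congr rfl fun i _ => ?_
  rw [map_smul]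
  rfl

/-! ### The derivation -/

section der

variable {ι : Type} [Fintype ι] [DecidableEq ι] {κ : Type} [Fintype κ] [DecidableEq κ]

theorem dp_lin {R : Type*} [CommRing R] (c : R) (x y : Matrix ι ι R) :
    dp κ (x + c • y) = dp κ x + c • dp κ y := by
  ext v w
  simp only [dp, Matrix.of_apply, Matrix.add_apply, Matrix.smul_apply, smul_eq_mul]
  rw [Finset.mul_sum, ← Finset.sum_add_distrib]
  refine Finset.sum_congr rfl fun k _ => ?_
  ring

/-- `dp` as a linear map -/
noncomputable def dpl (κ : Type) [Fintype κ] [DecidableEq κ] {R : Type*} [CommRing R] :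
    Matrix ι ι R →ₗ[R] Matrix (κ → ι) (κ → ι) R where
  toFun y := dp κ y
  map_add' x y := by
    have := dp_lin (κ := κ) 1 x y
    rwa [one_smul, one_smul] at this
  map_smul' c y := by
    have h := dp_lin (κ := κ) c 0 y
    have h0 : dp κ (0 : Matrix ι ι R) = 0 := by
      ext v w
      simp [dp]
    rwa [h0, zero_add, zero_add] at h

theorem dp_map {R R' : Type*} [CommRing R] [CommRing R'] (f : R →+* R') (y : Matrix ι ι R) :
    dp κ (y.map f) = (dp κ y).map f := by
  ext v w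
  simp only [dp, Matrix.of_apply, Matrix.map_apply, map_sum, map_mul, map_prod]
  refine Finset.sum_congr rfl fun k _ => ?_
  congr 1
  refine Finset.prod_congr rfl fun j _ => ?_
  split_ifs <;> simp

theorem dp_expand {R : Type*} [CommRing R] (y : Matrix ι ι R) (v w : κ → ι) :
    dp κ y v w = ∑ q : ι × ι, dp κ (Matrix.single q.1 q.2 (1 : R)) v w * y q.1 q.2 := by
  have h1 : y = ∑ q : ι × ι, y q.1 q.2 • Matrix.single q.1 q.2 (1 : R) := by
    conv_lhs => rw [Matrix.matrix_eq_sum_single y]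
    rw [Fintype.sum_prod_type]
    refine Finset.sum_congr rfl fun i _ => Finset.sum_congr rfl fun j _ => ?_
    rw [Matrix.smul_single, smul_eq_mul, mul_one]
  have h2 : dp κ y = ∑ q : ι × ι, y q.1 q.2 • dp κ (Matrix.single q.1 q.2 (1 : R)) := by
    conv_lhs => rw [h1]
    have h3 := map_sum (dpl (ι := ι) κ (R := R)) (fun q : ι × ι => y q.1 q.2 • Matrix.single q.1 q.2 (1 : R))
      Finset.univ
    have h4 : ∀ z : Matrix ι ι R, dpl κ z = dp κ z := fun _ => rfl
    rw [h4] at h3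
    rw [h3]
    refine Finset.sum_congr rfl fun q _ => ?_
    rw [map_smul, h4]
  rw [h2, Matrix.sum_apply]
  refine Finset.sum_congr rfl fun q _ => ?_
  rw [Matrix.smul_apply, smul_eq_mul, mul_comm]

end der

/-! ### The equations for the matrices which kill the Hodge arrays -/

section kill

variable {ι : Type} [Fintype ι] [DecidableEq ι]

/-- the equations -/
def PP (H : HData ι) : Set (ι × ι → ℚ) :=
  {p | ∃ (n : ℕ) (a : (Fin (n + 1) → ι) → ℚ) (v : Fin (n + 1) → ι), a ∈ BB H (Fin (n + 1)) ∧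
    p = fun q => (dp (Fin (n + 1)) (Matrix.single q.1 q.2 (1 : ℚ)) *ᵥ a) v}

theorem kill_iff (H : HData ι) (L : Type*) [Field L] [CharZero L] (y : Matrix ι ι L) :
    Kill H L y ↔ ∀ p ∈ PP H, ∑ q : ι × ι, (p q : L) * y q.1 q.2 = 0 := by
  have key : ∀ (n : ℕ) (a : (Fin (n + 1) → ι) → ℚ) (v : Fin (n + 1) → ι),
      (dp (Fin (n + 1)) y *ᵥ aL L a) v =
        ∑ q : ι × ι, (((dp (Fin (n + 1)) (Matrix.single q.1 q.2 (1 : ℚ)) *ᵥ a) v : ℚ) : L) *
          y q.1 q.2 := by
    intro n a v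
    rw [Matrix.mulVec, dotProduct]
    simp_rw [dp_expand y]
    simp_rw [Finset.sum_mul]
    rw [Finset.sum_comm]
    refine Finset.sum_congr rfl fun q _ => ?_
    rw [Matrix.mulVec, dotProduct, Rat.cast_sum, Finset.sum_mul]
    refine Finset.sum_congr rfl fun w _ => ?_
    have h1 : (Matrix.single q.1 q.2 (1 : L)) =
        (Matrix.single q.1 q.2 (1 : ℚ)).map (Rat.castHom L) := by
      rw [Matrix.map_single, map_one]
    rw [h1, dp_map, Matrix.map_apply]
    unfold aL
    push_cast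
    rw [Rat.coe_castHom]
    ring
  constructor
  · rintro h p ⟨n, a, v, ha, rfl⟩
    rw [← key n a v, h n a ha]
    rfl
  · intro h n a ha
    funext v
    rw [key n a v]
    exact h _ ⟨n, a, v, ha, rfl⟩

theorem kill_span (H : HData ι) (N : Matrix ι ι ℂ) (hN : Kill H ℂ N) :
    N ∈ Submodule.span ℂ {y : Matrix ι ι ℂ | ∃ y0 : Matrix ι ι ℚ, Kill H ℚ y0 ∧
      y0.map (Rat.castHom ℂ) = y} := by
  have h1 := rat_eq (PP H) (fun q : ι × ι => N q.1 q.2) ((kill_iff H ℂ N).1 hN)
  obtain ⟨φ, hφ⟩ : ∃ φ : (ι × ι → ℂ) →ₗ[ℂ] Matrix ι ι ℂ, ∀ x i j, φ x i j = x (i, j) :=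
    ⟨{ toFun := fun x => Matrix.of fun i j => x (i, j)
       map_add' := fun _ _ => rfl
       map_smul' := fun _ _ => rfl }, fun _ _ _ => rfl⟩
  have h2 := Submodule.mem_map_of_mem (f := φ) h1
  rw [Submodule.map_span] at h2
  have h3 : φ (fun q : ι × ι => N q.1 q.2) = N := by
    ext i j
    rw [hφ]
  rw [h3] at h2
  refine Submodule.span_mono ?_ h2
  rintro _ ⟨_, ⟨z, hz, rfl⟩, rfl⟩
  refine ⟨Matrix.of fun i j => z (i, j), ?_, ?_⟩
  · rw [kill_iff]
    intro p hp
    rw [← hz p hp]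
    refine Finset.sum_congr rfl fun q _ => ?_
    rfl
  · ext i j
    rw [hφ]
    rfl

theorem kill_cast (H : HData ι) (L : Type*) [Field L] [CharZero L] (y : Matrix ι ι ℚ)
    (h : Kill H ℚ y) : Kill H L (y.map (Rat.castHom L)) := by
  rw [kill_iff] at h ⊢
  intro p hp
  have h1 := h p hp
  have h2 : ((∑ q : ι × ι, ((p q : ℚ) : ℚ) * y q.1 q.2 : ℚ) : L) = 0 := by
    have h3 : (∑ q : ι × ι, ((p q : ℚ) : ℚ) * y q.1 q.2 : ℚ) = 0 := h1
    exact (congrArg (fun r : ℚ => (r : L)) h3).trans Rat.cast_zero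
  rw [Rat.cast_sum] at h2
  rw [← h2]
  refine Finset.sum_congr rfl fun q _ => ?_
  rw [Matrix.map_apply]
  push_cast
  rfl

end kill

/-! ### The generator of the cocharacter -/

section gen

variable {ι : Type} [Fintype ι] [DecidableEq ι] {κ : Type} [Fintype κ] [DecidableEq κ]

/-- the generator -/
noncomputable def gN (H : HData ι) : Matrix ι ι ℂ :=
  ∑ k ∈ Finset.Icc (-H.w : ℤ) H.w, (k : ℂ) • H.π k

/-- the projectors -/
noncomputable def Pf (H : HData ι) (f : κ → ℤ) : Matrix (κ → ι) (κ → ι) ℂ :=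
  Matrix.of fun v w => ∏ k, H.π (f k) (v k) (w k)

/-- the weights -/
noncomputable def FF (κ : Type) [Fintype κ] [DecidableEq κ] (H : HData ι) : Finset (κ → ℤ) :=
  Fintype.piFinset fun _ : κ => Finset.Icc (-H.w : ℤ) H.w

theorem Pf_mul (H : HData ι) (f g : κ → ℤ) (hf : f ∈ FF κ H) (hg : g ∈ FF κ H) :
    Pf H f * Pf H g = if f = g then Pf H f else 0 := by
  ext v w
  have hf' := Fintype.mem_piFinset.1 hf
  have hg' := Fintype.mem_piFinset.1 hg
  have h1 : (Pf H f * Pf H g) v w = ∏ k, (H.π (f k) * H.π (g k)) (v k) (w k) := by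
    simp only [Matrix.mul_apply, Pf, Matrix.of_apply]
    rw [Finset.prod_univ_sum, Fintype.piFinset_univ]
    refine Finset.sum_congr rfl fun u _ => ?_
    rw [Finset.prod_mul_distrib]
  rw [h1]
  by_cases h : f = g
  · subst h
    rw [if_pos rfl]
    show _ = ∏ k, H.π (f k) (v k) (w k)
    refine Finset.prod_congr rfl fun k _ => ?_
    rw [H.hmul _ (hf' k) _ (hf' k), if_pos rfl]
  · rw [if_neg h]
    obtain ⟨k, hk⟩ := Function.ne_iff.1 h
    refine Finset.prod_eq_zero (Finset.mem_univ k) ?_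
    rw [H.hmul _ (hf' k) _ (hg' k), if_neg hk]
    rfl

/-- expansion of a product of combinations of projectors -/
theorem prod_comb (H : HData ι) (c : κ → ℤ → ℂ) (v w : κ → ι) :
    ∏ j, (∑ a ∈ Finset.Icc (-H.w : ℤ) H.w, c j a • H.π a) (v j) (w j) =
      ∑ f ∈ FF κ H, (∏ j, c j (f j)) * Pf H f v w := by
  simp only [Matrix.sum_apply, Matrix.smul_apply, smul_eq_mul]
  rw [Finset.prod_univ_sum]
  refine Finset.sum_congr rfl fun f _ => ?_
  rw [Finset.prod_mul_distrib]
  rfl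

theorem Pf_sum (H : HData ι) : ∑ f ∈ FF κ H, Pf H f = 1 := by
  ext v w
  have h1 := prod_comb (κ := κ) H (fun _ _ => 1) v w
  simp only [one_smul, Finset.prod_const_one, one_mul] at h1
  rw [H.h1] at h1
  rw [Matrix.sum_apply, ← h1]
  have h2 := congrFun (congrFun (kp_one (κ := κ) (ι := ι) (R := ℂ)) v) w
  exact h2

theorem kp_l (H : HData ι) (t : ℂ) (ht : t ≠ 0) :
    kp κ (H.l t) = ∑ f ∈ FF κ H, t ^ (∑ k, f k) • Pf H f := by
  ext v w
  rw [kp_apply, H.l_apply, Matrix.sum_apply]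
  rw [prod_comb (κ := κ) H (fun _ a => t ^ a) v w]
  refine Finset.sum_congr rfl fun f _ => ?_
  rw [Matrix.smul_apply, smul_eq_mul]
  congr 1
  have h : ∀ s : Finset κ, ∏ j ∈ s, t ^ f j = t ^ (∑ k ∈ s, f k) := by
    intro s
    induction s using Finset.induction_on with
    | empty => simp
    | insert a s ha ih =>
      rw [Finset.prod_insert ha, Finset.sum_insert ha, zpow_add₀ ht, ih]
  exact h Finset.univ

theorem dp_gN (H : HData ι) : dp κ (gN H) = ∑ f ∈ FF κ H, ((∑ k, f k : ℤ) : ℂ) • Pf H f := by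
  ext v w
  have h1 : ∀ k : κ, gN H (v k) (w k) * ∏ j ∈ Finset.univ.erase k, (if v j = w j then 1 else 0) =
      ∑ f ∈ FF κ H, ((f k : ℤ) : ℂ) * Pf H f v w := by
    intro k
    have h2 := prod_comb (κ := κ) H (fun j a => if j = k then (a : ℂ) else 1) v w
    rw [← Finset.mul_prod_erase Finset.univ _ (Finset.mem_univ k)] at h2
    have h3 : (∑ a ∈ Finset.Icc (-H.w : ℤ) H.w, (if k = k then (a : ℂ) else 1) • H.π a) = gN H := by
      rw [gN]
      refine Finset.sum_congr rfl fun a _ => ?_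
      rw [if_pos rfl]
    have h4 : ∏ j ∈ Finset.univ.erase k,
        (∑ a ∈ Finset.Icc (-H.w : ℤ) H.w, (if j = k then (a : ℂ) else 1) • H.π a) (v j) (w j) =
        ∏ j ∈ Finset.univ.erase k, (if v j = w j then 1 else 0) := by
      refine Finset.prod_congr rfl fun j hj => ?_
      have h5 : (∑ a ∈ Finset.Icc (-H.w : ℤ) H.w, (if j = k then (a : ℂ) else 1) • H.π a) = 1 := by
        rw [← H.h1]
        refine Finset.sum_congr rfl fun a _ => ?_
        rw [if_neg (Finset.ne_of_mem_erase hj), one_smul]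
      rw [h5, Matrix.one_apply]
    rw [h3, h4] at h2
    rw [h2]
    refine Finset.sum_congr rfl fun f _ => ?_
    congr 1
    rw [Finset.prod_eq_single k]
    · rw [if_pos rfl]
    · intro j _ hj
      rw [if_neg hj]
    · intro h
      exact absurd (Finset.mem_univ _) h
  show ∑ k, gN H (v k) (w k) * ∏ j ∈ Finset.univ.erase k, (if v j = w j then 1 else 0) = _
  simp_rw [h1]
  rw [Finset.sum_comm, Matrix.sum_apply]
  refine Finset.sum_congr rfl fun f _ => ?_
  rw [Matrix.smul_apply, smul_eq_mul, ← Finset.sum_mul]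
  push_cast
  rfl

theorem Pf_comb (H : HData ι) (c : (κ → ℤ) → ℂ) (f : κ → ℤ) (hf : f ∈ FF κ H) :
    Pf H f * (∑ g ∈ FF κ H, c g • Pf H g) = c f • Pf H f := by
  rw [Finset.mul_sum, Finset.sum_eq_single f]
  · rw [Matrix.mul_smul, Pf_mul H f f hf hf, if_pos rfl]
  · intro g hg hne
    rw [Matrix.mul_smul, Pf_mul H f g hf hg, if_neg (Ne.symm hne), smul_zero]
  · intro h
    exact absurd hf h

theorem fixed_iff (H : HData ι) (z : (κ → ι) → ℂ) :
    (∀ t : ℂ, t ≠ 0 → kp κ (H.l t) *ᵥ z = z) ↔ dp κ (gN H) *ᵥ z = 0 := by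
  constructor
  · intro h
    have h1 : ∀ f ∈ FF κ H, ((∑ k, f k : ℤ) : ℂ) • (Pf H f *ᵥ z) = 0 := by
      intro f hf
      by_cases h0 : (∑ k, f k) = 0
      · rw [h0, Int.cast_zero, zero_smul]
      · have h2 := h 2 two_ne_zero
        have h3 : Pf H f *ᵥ (kp κ (H.l 2) *ᵥ z) = Pf H f *ᵥ z := congrArg (fun x => Pf H f *ᵥ x) h2
        rw [Matrix.mulVec_mulVec, kp_l H 2 two_ne_zero,
          Pf_comb H (fun f => (2 : ℂ) ^ (∑ k, f k)) f hf, Matrix.smul_mulVec] at h3
        have h4 : ((2 : ℂ) ^ (∑ k, f k) - 1) • (Pf H f *ᵥ z) = 0 := by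
          rw [sub_smul, one_smul, h3, sub_self]
        have h5 : (2 : ℂ) ^ (∑ k, f k) - 1 ≠ 0 := by
          intro h6
          have h7 : (2 : ℂ) ^ (∑ k, f k) = 1 := by linear_combination h6
          have h8 : ‖(2 : ℂ) ^ (∑ k, f k)‖ = 1 := by rw [h7, norm_one]
          rw [norm_zpow] at h8
          have h9 : ‖(2 : ℂ)‖ = 2 := by simp
          rw [h9] at h8
          have h10 := zpow_right_injective₀ (a := (2 : ℝ)) (by norm_num) (by norm_num)
            (show (2 : ℝ) ^ (∑ k, f k) = (2 : ℝ) ^ (0 : ℤ) by rw [h8, zpow_zero])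
          exact h0 h10
        rw [(smul_eq_zero.1 h4).resolve_left h5, smul_zero]
    rw [dp_gN, Matrix.sum_mulVec]
    refine Finset.sum_eq_zero fun f hf => ?_
    rw [Matrix.smul_mulVec]
    exact h1 f hf
  · intro h t ht
    have h1 : ∀ f ∈ FF κ H, (∑ k, f k) ≠ 0 → Pf H f *ᵥ z = 0 := by
      intro f hf h0
      have h3 : Pf H f *ᵥ (dp κ (gN H) *ᵥ z) = Pf H f *ᵥ 0 := congrArg (fun x => Pf H f *ᵥ x) h
      rw [Matrix.mulVec_mulVec, dp_gN,
        Pf_comb H (fun f => ((∑ k, f k : ℤ) : ℂ)) f hf, Matrix.smul_mulVec,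
        Matrix.mulVec_zero] at h3
      exact (smul_eq_zero.1 h3).resolve_left (by exact_mod_cast h0)
    have h2 : z = ∑ f ∈ FF κ H, Pf H f *ᵥ z := by
      rw [← Matrix.sum_mulVec, Pf_sum, Matrix.one_mulVec]
    conv_rhs => rw [h2]
    rw [kp_l H t ht, Matrix.sum_mulVec]
    refine Finset.sum_congr rfl fun f hf => ?_
    rw [Matrix.smul_mulVec]
    by_cases h0 : (∑ k, f k) = 0
    · rw [h0, zpow_zero, one_smul]
    · rw [h1 f hf h0, smul_zero]

end gen

theorem hodge_ : S_HODGE := by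
  intro ι _ _ H L _ _ n a ha
  have hN : Kill H ℂ (gN H) := by
    intro n a ha
    exact (fixed_iff H (aL ℂ a)).1 ha
  have hspanN := kill_span H (gN H) hN
  have h1 := rat_eq (F := L) {p : (Fin (n + 1) → ι) → ℚ | ∃ (y0 : Matrix ι ι ℚ)
    (v : Fin (n + 1) → ι), Kill H ℚ y0 ∧ p = fun w => dp (Fin (n + 1)) y0 v w} a (by
      rintro p ⟨y0, v, hy0, rfl⟩
      have h2 := congrFun (ha _ (kill_cast H L y0 hy0)) v
      rw [dp_map] at h2
      exact h2)
  refine Submodule.span_mono ?_ h1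
  rintro _ ⟨z, hz, rfl⟩
  refine ⟨z, ?_, rfl⟩
  have h2 : ∀ y0 : Matrix ι ι ℚ, Kill H ℚ y0 → dp (Fin (n + 1)) y0 *ᵥ z = 0 := by
    intro y0 hy0
    funext v
    exact hz _ ⟨y0, v, hy0, rfl⟩
  have h3 : ∀ y ∈ Submodule.span ℂ {y : Matrix ι ι ℂ | ∃ y0 : Matrix ι ι ℚ, Kill H ℚ y0 ∧
      y0.map (Rat.castHom ℂ) = y}, dp (Fin (n + 1)) y *ᵥ (ca z) = 0 := by
    intro y hy
    induction hy using Submodule.span_induction with
    | mem x hx =>
      obtain ⟨y0, hy0, rfl⟩ := hx
      rw [dp_map]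
      funext v
      have h4 := congrFun (h2 y0 hy0) v
      rw [Matrix.mulVec, dotProduct] at h4 ⊢
      have h5 : ((∑ w, dp (Fin (n + 1)) y0 v w * z w : ℚ) : ℂ) = 0 := by
        rw [h4]
        simp
      rw [Rat.cast_sum] at h5
      rw [Pi.zero_apply, ← h5]
      refine Finset.sum_congr rfl fun w _ => ?_
      rw [Matrix.map_apply]
      unfold ca
      push_cast
      rfl
    | zero =>
      have h0 : dp (Fin (n + 1)) (0 : Matrix ι ι ℂ) = 0 := (dpl (Fin (n + 1))).map_zero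
      rw [h0, Matrix.zero_mulVec]
    | add x y _ _ hx hy =>
      have h0 : dp (Fin (n + 1)) (x + y) = dp (Fin (n + 1)) x + dp (Fin (n + 1)) y :=
        (dpl (Fin (n + 1))).map_add x y
      rw [h0, Matrix.add_mulVec, hx, hy, add_zero]
    | smul c x _ hx =>
      have h0 : dp (Fin (n + 1)) (c • x) = c • dp (Fin (n + 1)) x :=
        (dpl (Fin (n + 1))).map_smul c x
      rw [h0, Matrix.smul_mulVec, hx, smul_zero]
  exact (fixed_iff H (ca z)).2 (h3 _ hspanN)

end Pool.Agent.N738.TB
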